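import Pool.Agent.Helper10.CR.Goals1

/-!
# Project CR, packet DIAMOND: a failure of distributivity in a modular lattice gives a diamond
-/

universe u

namespace Pool.Agent.Helper93.CR

open Pool.Agent.Helper10.CR

section

variable {L : Type u} [Lattice L] [IsModularLattice L]

theorem alt_eq (x y z : L) : (x ⊓ (y ⊔ z)) ⊔ (y ⊓ z) = (x ⊔ (y ⊓ z)) ⊓ (y ⊔ z) := by
  rw [sup_comm (x ⊓ (y ⊔ z)) (y ⊓ z), sup_comm x (y ⊓ z)]
  exact (sup_inf_assoc_of_le x (inf_le_left.trans le_sup_left : y ⊓ z ≤ y ⊔ z)).symm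

theorem meet_eq (x y z : L) :
    ((x ⊓ (y ⊔ z)) ⊔ (y ⊓ z)) ⊓ ((y ⊓ (z ⊔ x)) ⊔ (z ⊓ x)) =
      (x ⊓ y) ⊔ (y ⊓ z) ⊔ (z ⊓ x) := by
  rw [alt_eq x y z, alt_eq y z x]
  have h1 : x ⊔ (y ⊓ z) ≤ z ⊔ x := sup_le le_sup_right (inf_le_right.trans le_sup_left)
  have h2 : y ⊔ (z ⊓ x) ≤ y ⊔ z := sup_le le_sup_left (inf_le_left.trans le_sup_right)
  have h3 : (x ⊔ (y ⊓ z)) ⊓ (y ⊔ z) ⊓ ((y ⊔ (z ⊓ x)) ⊓ (z ⊔ x)) =
      (y ⊔ (z ⊓ x)) ⊓ (x ⊔ (y ⊓ z)) := by
    apply le_antisymm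
    · exact le_inf (inf_le_right.trans inf_le_left) (inf_le_left.trans inf_le_left)
    · exact le_inf (le_inf inf_le_right (inf_le_left.trans h2))
        (le_inf inf_le_left (inf_le_right.trans h1))
  rw [h3]
  have h4 : (y ⊔ (z ⊓ x)) ⊓ (x ⊔ (y ⊓ z)) = (z ⊓ x) ⊔ y ⊓ (x ⊔ (y ⊓ z)) := by
    rw [sup_comm y (z ⊓ x)]
    exact sup_inf_assoc_of_le y (inf_le_right.trans le_sup_left : z ⊓ x ≤ x ⊔ (y ⊓ z))
  have h5 : y ⊓ (x ⊔ (y ⊓ z)) = (y ⊓ z) ⊔ (x ⊓ y) := by
    rw [inf_comm y, sup_comm x (y ⊓ z)]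
    exact sup_inf_assoc_of_le x (inf_le_left : y ⊓ z ≤ y)
  rw [h4, h5]
  apply le_antisymm
  · exact sup_le le_sup_right (sup_le (le_sup_right.trans le_sup_left)
      (le_sup_left.trans le_sup_left))
  · exact sup_le (sup_le (le_sup_right.trans le_sup_right) (le_sup_left.trans le_sup_right))
      le_sup_left

theorem join_eq (x y z : L) :
    ((x ⊓ (y ⊔ z)) ⊔ (y ⊓ z)) ⊔ ((y ⊓ (z ⊔ x)) ⊔ (z ⊓ x)) =
      (x ⊔ y) ⊓ (y ⊔ z) ⊓ (z ⊔ x) := by
  rw [alt_eq x y z, alt_eq y z x]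
  exact meet_eq (L := Lᵒᵈ) (OrderDual.toDual x) (OrderDual.toDual y) (OrderDual.toDual z)

end

theorem goalDiamond : GoalDiamond.{u} := by
  intro L _ _ x y z hxyz
  have m1 := meet_eq x y z
  have m2 := meet_eq y z x
  have m3 := meet_eq z x y
  have j1 := join_eq x y z
  have j2 := join_eq y z x
  have j3 := join_eq z x y
  constructor
  · refine lt_of_le_not_ge ?_ ?_
    · rw [← m1]
      exact inf_le_left
    · intro hle
      apply hxyz
      have h1 : x ⊓ (y ⊔ z) ≤ (x ⊓ y) ⊔ (y ⊓ z) ⊔ (z ⊓ x) := le_sup_left.trans hle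
      have h2 : x ⊓ (y ⊔ z) ≤ x ⊓ (((x ⊓ y) ⊔ (z ⊓ x)) ⊔ (y ⊓ z)) := by
        refine le_inf inf_le_left (h1.trans ?_)
        exact sup_le (sup_le (le_sup_left.trans le_sup_left) le_sup_right)
          (le_sup_right.trans le_sup_left)
      have h3 : (x ⊓ y) ⊔ (z ⊓ x) ≤ x := sup_le inf_le_left inf_le_right
      have h4 : (((x ⊓ y) ⊔ (z ⊓ x)) ⊔ (y ⊓ z)) ⊓ x =
          ((x ⊓ y) ⊔ (z ⊓ x)) ⊔ (y ⊓ z) ⊓ x := sup_inf_assoc_of_le (y ⊓ z) h3
      rw [inf_comm x (((x ⊓ y) ⊔ (z ⊓ x)) ⊔ (y ⊓ z)), h4] at h2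
      refine h2.trans ?_
      refine sup_le (sup_le le_sup_left ?_) ?_
      · rw [inf_comm z x]
        exact le_sup_right
      · exact (le_inf inf_le_right (inf_le_left.trans inf_le_left)).trans le_sup_left
  · exact m1
  · rw [inf_comm, m3]
    apply le_antisymm
    · exact sup_le (sup_le le_sup_right (le_sup_left.trans le_sup_left))
        (le_sup_right.trans le_sup_left)
    · exact sup_le (sup_le (le_sup_right.trans le_sup_left) le_sup_right)
        (le_sup_left.trans le_sup_left)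
  · rw [m2]
    apply le_antisymm
    · exact sup_le (sup_le (le_sup_right.trans le_sup_left) le_sup_right)
        (le_sup_left.trans le_sup_left)
    · exact sup_le (sup_le le_sup_right (le_sup_left.trans le_sup_left))
        (le_sup_right.trans le_sup_left)
  · exact j1
  · rw [sup_comm, j3]
    apply le_antisymm
    · exact le_inf (le_inf (inf_le_left.trans inf_le_right) inf_le_right)
        (inf_le_left.trans inf_le_left)
    · exact le_inf (le_inf inf_le_right (inf_le_left.trans inf_le_left))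
        (inf_le_left.trans inf_le_right)
  · rw [j2]
    apply le_antisymm
    · exact le_inf (le_inf inf_le_right (inf_le_left.trans inf_le_left))
        (inf_le_left.trans inf_le_right)
    · exact le_inf (le_inf (inf_le_left.trans inf_le_right) inf_le_right)
        (inf_le_left.trans inf_le_left)

end Pool.Agent.Helper93.CR
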